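import Pool.Agent.H42.PB.Ext

/-!
# Lexicographic thresholds of decorations

A decoration of a family and an event is a structure with countably many real coordinates (labels
of the points, their volumes, the precisions to which their frames are closed, ...). In a nonempty
class of families with events there are numbers which are attained, up to the defect, by the
coordinates of one decoration, on arbitrarily stable events, and which are, in lexicographic order,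
not exceeded by any decoration of any large event.
-/

set_option autoImplicit false

namespace Pool.PC

open Finset Real
open Pool.Agent.H49.Ent Pool.Agent.H32.Dense Pool.STK Pool.KA Pool.K2S Pool.PB

variable {m : ℕ}

/-- Decorations: `Q v J F A` means that there is a decoration of the family `F` on the event `A`
whose coordinates are at least `v`. -/
structure Dec (m : ℕ) where
  /-- there is a decoration with coordinates at least `v` -/
  Q : (ℕ → ℝ) → Stat m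
  /-- lower bounds for the coordinates -/
  lo : ℕ → ℝ
  /-- upper bounds for the coordinates -/
  up : ℕ → ℝ
  her : ∀ (v : ℕ → ℝ) (J : ℕ) (F : Fam m J), Hered (Q v J F)
  anti : ∀ {v v' : ℕ → ℝ} {J : ℕ} {F : Fam m J} {A : F.Ω → Prop}, (∀ i, v' i ≤ v i) →
    Q v J F A → Q v' J F A
  bnd : ∀ {v : ℕ → ℝ} {J : ℕ} {F : Fam m J} {A : F.Ω → Prop}, Q v J F A →
    Q (fun i => max (v i) (lo i)) J F A

/-- The sliding property: there is a decoration whose first coordinates are at least `s`, up to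
the defect. -/
def Dec.sld (D : Dec m) (s : ℕ → ℝ) : Sld m where
  P τ J F A := ∃ v : ℕ → ℝ, D.Q v J F A ∧ ∀ i : ℕ, ((i : ℝ) + 1) * τ ≤ 1 → s i - τ ≤ v i
  mono := by
    rintro τ τ' J F A h ⟨v, h1, h2⟩
    refine ⟨v, h1, fun i hi => ?_⟩
    have h3 := h2 i (le_trans (mul_le_mul_of_nonneg_left h (by positivity)) hi)
    linarith
  res := by
    rintro τ τ' J F A B h ⟨v, h1, h2⟩ hB -
    refine ⟨v, D.her v J F A B hB h1, fun i hi => ?_⟩
    have h3 := h2 i (le_trans (mul_le_mul_of_nonneg_left (by linarith) (by positivity)) hi)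
    linarith

/-- The first `n` coordinates are attained. -/
def Att (S : PCl m) (D : Dec m) (n : ℕ) (s : ℕ → ℝ) : Prop :=
  ∀ τ : ℝ, 0 < τ → ∀ J₁ : ℕ, ∃ J ≥ J₁, ∃ (F : Fam m J) (A : F.Ω → Prop), S.St τ J F A ∧
    ∃ v : ℕ → ℝ, D.Q v J F A ∧ ∀ j < n, s j - τ ≤ v j

/-- The coordinate `n` is not exceeded by decorations which attain the coordinates before. -/
def Bar (S : PCl m) (D : Dec m) (n : ℕ) (s : ℕ → ℝ) : Prop :=
  ∀ h : ℝ, 0 < h → ∃ ψ : ℝ, 0 < ψ ∧ ∃ J₁ : ℕ, ∀ J ≥ J₁, ∀ (F : Fam m J) (A : F.Ω → Prop),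
    S.St ψ J F A → ∀ B : F.Ω → Prop, Sub B A → Real.exp (-(ψ * J)) * Pe F.p A ≤ Pe F.p B →
      ∀ v : ℕ → ℝ, (∀ j < n, s j - ψ ≤ v j) → s n + h ≤ v n → ¬ D.Q v J F B

theorem Bar.congr {S : PCl m} {D : Dec m} {n : ℕ} {s s' : ℕ → ℝ} (h : ∀ j ≤ n, s j = s' j)
    (hs : Bar S D n s) : Bar S D n s' := by
  intro e he
  obtain ⟨ψ, hψ, J₁, h1⟩ := hs e he
  refine ⟨ψ, hψ, J₁, fun J hJ F A hA B hB hP v hv hn => ?_⟩
  refine h1 J hJ F A hA B hB hP v (fun j hj => ?_) ?_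
  · rw [h j hj.le]
    exact hv j hj
  · rw [h n le_rfl]
    exact hn

theorem Att.congr {S : PCl m} {D : Dec m} {n : ℕ} {s s' : ℕ → ℝ} (h : ∀ j < n, s j = s' j)
    (hs : Att S D n s) : Att S D n s' := by
  intro τ hτ J₁
  obtain ⟨J, hJ, F, A, hA, v, hv, h1⟩ := hs τ hτ J₁
  refine ⟨J, hJ, F, A, hA, v, hv, fun j hj => ?_⟩
  rw [← h j hj]
  exact h1 j hj

/-- One coordinate. -/
theorem Att.step {S : PCl m} {D : Dec m} (hq : ∀ i, Clp S (fun J F A => ∀ v : ℕ → ℝ,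
    D.Q v J F A → v i ≤ D.up i)) {n : ℕ} {s : ℕ → ℝ} (hs : Att S D n s) :
    ∃ t : ℝ, D.lo n ≤ t ∧ t ≤ D.up n ∧ Att S D (n + 1) (Function.update s n t) ∧
      Bar S D n (Function.update s n t) := by
  classical
  -- the upper bound, without stability
  obtain ⟨c, hc, J₀, hup⟩ : ∃ c > 0, ∃ J₁ : ℕ, ∀ J ≥ J₁, ∀ (F : Fam m J) (A : F.Ω → Prop),
      S.St c J F A → ∀ v : ℕ → ℝ, D.Q v J F A → v n ≤ D.up n := by
    obtain ⟨c, hc0, J₁, h⟩ := (hq n).win 1 one_pos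
    refine ⟨c, hc0, J₁, fun J hJ F A hA v hv => ?_⟩
    obtain ⟨B, hB, -, hn⟩ := h J hJ F A hA
    exact hn v (D.her v J F A B hB hv)
  obtain ⟨X, hX⟩ : ∃ X : Set ℝ, X = {t : ℝ | D.lo n ≤ t ∧ t ≤ D.up n ∧
      ∀ τ : ℝ, 0 < τ → ∀ J₁ : ℕ, ∃ J ≥ J₁, ∃ (F : Fam m J) (A : F.Ω → Prop), S.St τ J F A ∧
        ∃ v : ℕ → ℝ, D.Q v J F A ∧ (∀ j < n, s j - τ ≤ v j) ∧ t ≤ v n} := ⟨_, rfl⟩
  have hatt : ∀ τ : ℝ, 0 < τ → ∀ J₁ : ℕ, ∃ J ≥ J₁, ∃ (F : Fam m J) (A : F.Ω → Prop),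
      S.St τ J F A ∧ ∃ v : ℕ → ℝ, D.Q v J F A ∧ (∀ j < n, s j - τ ≤ v j) ∧ D.lo n ≤ v n := by
    intro τ hτ J₁
    obtain ⟨J, hJ, F, A, hA, v, hv, h1⟩ := hs τ hτ J₁
    exact ⟨J, hJ, F, A, hA, _, D.bnd hv, fun j hj => (h1 j hj).trans (le_max_left _ _),
      le_max_right _ _⟩
  have hlu : D.lo n ≤ D.up n := by
    obtain ⟨J, hJ, F, A, hA, v, hv, h1, h2⟩ := hatt c hc J₀
    exact h2.trans (hup J hJ F A hA v hv)
  have h0 : D.lo n ∈ X := by
    rw [hX]
    exact ⟨le_rfl, hlu, hatt⟩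
  have hb : BddAbove X := ⟨D.up n, fun t ht => by rw [hX] at ht; exact ht.2.1⟩
  refine ⟨sSup X, le_csSup hb h0, csSup_le ⟨_, h0⟩ fun t ht => by rw [hX] at ht; exact ht.2.1,
    ?_, ?_⟩
  · intro τ hτ J₁
    obtain ⟨t, ht, hlt⟩ : ∃ t ∈ X, sSup X - τ < t :=
      exists_lt_of_lt_csSup ⟨_, h0⟩ (by linarith)
    rw [hX] at ht
    obtain ⟨J, hJ, F, A, hA, v, hv, h1, h2⟩ := ht.2.2 τ hτ J₁
    refine ⟨J, hJ, F, A, hA, v, hv, fun j hj => ?_⟩
    rcases Nat.lt_succ_iff_lt_or_eq.1 hj with h3 | h3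
    · rw [Function.update_of_ne h3.ne]
      exact h1 j h3
    · rw [h3, Function.update_self]
      exact hlt.le.trans h2
  · intro h hh
    by_cases hle : sSup X + h ≤ D.up n
    · have hnot : sSup X + h ∉ X := fun hmem => by linarith [le_csSup hb hmem]
      have hlo : D.lo n ≤ sSup X := le_csSup hb h0
      have hnot' : ¬ ∀ τ : ℝ, 0 < τ → ∀ J₁ : ℕ, ∃ J ≥ J₁, ∃ (F : Fam m J) (A : F.Ω → Prop),
          S.St τ J F A ∧ ∃ v : ℕ → ℝ, D.Q v J F A ∧ (∀ j < n, s j - τ ≤ v j) ∧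
            sSup X + h ≤ v n := by
        intro hcon
        have hmem : ∀ t, D.lo n ≤ t → t ≤ D.up n → (∀ τ : ℝ, 0 < τ → ∀ J₁ : ℕ, ∃ J ≥ J₁,
            ∃ (F : Fam m J) (A : F.Ω → Prop), S.St τ J F A ∧ ∃ v : ℕ → ℝ, D.Q v J F A ∧
              (∀ j < n, s j - τ ≤ v j) ∧ t ≤ v n) → t ∈ X := by
          intro t h1 h2 h3
          rw [hX]
          exact ⟨h1, h2, h3⟩
        exact hnot (hmem _ (by linarith) hle hcon)
      push Not at hnot'
      obtain ⟨τ, hτ, J₁, h1⟩ := hnot'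
      refine ⟨τ / 2, half_pos hτ, J₁, fun J hJ F A hA B hB hP v hv hn hQ => ?_⟩
      rw [Function.update_self] at hn
      have hS : S.St τ J F B := S.mono (by linarith) (S.res (half_pos hτ).le hA hB hP)
      refine absurd hn (not_le.2 (h1 J hJ F B hS v hQ fun j hj => ?_))
      have := hv j hj
      rw [Function.update_of_ne hj.ne] at this
      linarith
    · push Not at hle
      refine ⟨c / 2, half_pos hc, J₀, fun J hJ F A hA B hB hP v hv hn hQ => ?_⟩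
      rw [Function.update_self] at hn
      have hS : S.St c J F B := S.mono (by linarith) (S.res (half_pos hc).le hA hB hP)
      linarith [hup J hJ F B hS v hQ]

/-- **Lexicographic thresholds.** -/
theorem lex (S : PCl m) (D : Dec m) (hS : S.Ne)
    (hd : Clp S (fun J F A => ∃ v : ℕ → ℝ, D.Q v J F A))
    (hq : ∀ i, Clp S (fun J F A => ∀ v : ℕ → ℝ, D.Q v J F A → v i ≤ D.up i)) :
    ∃ s : ℕ → ℝ, (∀ i, D.lo i ≤ s i ∧ s i ≤ D.up i) ∧ (S.sl (D.sld s)).Ne ∧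
      ∀ i, Bar S D i s := by
  classical
  have h0 : Att S D 0 (fun _ => 0) := by
    intro τ hτ J₁
    obtain ⟨J, hJ, F, A, hA, v, hv⟩ := hd.real hS hτ J₁
    exact ⟨J, hJ, F, A, hA, v, hv, fun j hj => absurd hj (Nat.not_lt_zero j)⟩
  obtain ⟨t, ht⟩ : ∃ t : ∀ n : ℕ, {x : ℕ → ℝ // Att S D n x} → ℝ,
      ∀ n x, D.lo n ≤ t n x ∧ t n x ≤ D.up n ∧ Att S D (n + 1) (Function.update x.1 n (t n x)) ∧
        Bar S D n (Function.update x.1 n (t n x)) :=
    ⟨fun n x => (x.2.step hq).choose, fun n x => (x.2.step hq).choose_spec⟩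
  obtain ⟨f, hf⟩ : ∃ f : ∀ n : ℕ, {x : ℕ → ℝ // Att S D n x}, ∀ n, (f (n + 1)).1 =
      Function.update (f n).1 n (t n (f n)) :=
    ⟨fun n => Nat.rec ⟨fun _ => 0, h0⟩
      (fun n x => ⟨Function.update x.1 n (t n x), (ht n x).2.2.1⟩) n, fun n => rfl⟩
  obtain ⟨s, hs⟩ : ∃ s : ℕ → ℝ, s = fun n => t n (f n) := ⟨_, rfl⟩
  have key : ∀ n, ∀ j < n, (f n).1 j = s j := by
    intro n
    induction n with
    | zero => exact fun j hj => absurd hj (Nat.not_lt_zero j)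
    | succ n ih =>
      intro j hj
      rw [hf]
      rcases Nat.lt_succ_iff_lt_or_eq.1 hj with h3 | h3
      · rw [Function.update_of_ne h3.ne]
        exact ih j h3
      · rw [h3, Function.update_self, hs]
  refine ⟨s, fun i => ?_, ?_, fun i => ?_⟩
  · rw [hs]
    exact ⟨(ht i (f i)).1, (ht i (f i)).2.1⟩
  · intro τ hτ J₁
    obtain ⟨N, hN⟩ : ∃ N : ℕ, N = ⌊1 / τ⌋₊ := ⟨_, rfl⟩
    obtain ⟨J, hJ, F, A, hA, v, hv, h1⟩ := (f N).2 τ hτ J₁
    refine ⟨J, hJ, F, A, hA, v, hv, fun i hi => ?_⟩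
    have hlt : i < N := by
      have : i + 1 ≤ N := by
        rw [hN]
        refine Nat.le_floor ?_
        rw [le_div_iff₀ hτ]
        push_cast
        exact hi
      omega
    have := h1 i hlt
    rwa [key N i hlt] at this
  · refine (ht i (f i)).2.2.2.congr fun j hj => ?_
    rw [← hf]
    exact key (i + 1) j (by omega)

end Pool.PC
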