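import Pool.Agent.H85.TG.Stmts2
import Pool.Agent.H69.PC.Lex

/-!
# The class of Plan C

`cls m b K η R c₀`: families with trivial side information whose times are dominated by kernels
with few dead windows, and for which the label inequality fails by `R J` on all events of
probability at least `exp (-c₀ J)`, together with an event of probability at least `exp (-τ J)`.
The numbers `K`, `η`, `R`, `c₀` are fixed, the defect `τ` tends to zero.
-/

set_option autoImplicit false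

namespace Pool.PC

open Finset Real
open Pool.Agent.H49.Ent Pool.Agent.H32.Dense Pool.STK Pool.KA Pool.K2S Pool.PB Pool.LK

variable {m J : ℕ}

theorem dom_mono {F : Fam m J} {μ : F.Ω → ℕ → ℝ} {e e' : ℝ} (hK : F.Ker μ) (h : e ≤ e')
    (hD : F.Dom μ e) : F.Dom μ e' := fun ω hω =>
  (hD ω hω).trans (mul_le_mul_of_nonneg_right (Real.exp_le_exp.2 h) (hK.nonneg ω _))

theorem tgd_mono {F : Fam m J} {s : Prop} {K : ℕ} {η r n e e' : ℝ} (h : e ≤ e')
    (hD : F.TGD s K η r n e) : F.TGD s K η r n e' := by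
  obtain ⟨μ, h1, h2, h3, h4⟩ := hD
  exact ⟨μ, h1, h2, h3, dom_mono h1 h h4⟩

/-- The families of the class. -/
def CT (b : ℝ) (K : ℕ) (η R c₀ τ : ℝ) {J : ℕ} (F : Fam m J) : Prop :=
  F.Tr ∧ F.TGD False K η 0 (η * J) (τ * J) ∧ Umv F b R c₀

/-- **The class of Plan C.** -/
def cls (m : ℕ) (b : ℝ) (K : ℕ) (η R c₀ : ℝ) : PCl m where
  St τ J F A := CT b K η R c₀ τ F ∧ Real.exp (-(τ * J)) ≤ Pe F.p A
  mono := by
    rintro τ τ' J F A h ⟨⟨h1, h2, h3⟩, h4⟩
    have hJ : τ * (J : ℝ) ≤ τ' * J := mul_le_mul_of_nonneg_right h (Nat.cast_nonneg J)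
    exact ⟨⟨h1, tgd_mono hJ h2, h3⟩, (Real.exp_le_exp.2 (by linarith)).trans h4⟩
  res := by
    rintro τ τ' J F A B h ⟨⟨h1, h2, h3⟩, h4⟩ hB hP
    have hJ : τ * (J : ℝ) ≤ (τ + τ') * J :=
      mul_le_mul_of_nonneg_right (by linarith) (Nat.cast_nonneg J)
    refine ⟨⟨h1, tgd_mono hJ h2, h3⟩, ?_⟩
    refine le_trans ?_ hP
    refine le_trans ?_ (mul_le_mul_of_nonneg_left h4 (Real.exp_pos _).le)
    rw [← Real.exp_add]
    refine Real.exp_le_exp.2 ?_
    have : -((τ + τ') * (J : ℝ)) = -(τ' * J) + -(τ * J) := by ring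
    rw [this]

/-- If the label inequality fails, then it fails hereditarily. -/
def VexS (m : ℕ) (b : ℝ) : Prop :=
  ¬ LKG m b → ∃ R > 0, ∃ c₀ > 0, ∀ η > 0, ∃ K : ℕ, ∀ τ > 0, ∀ J₀ : ℕ,
    ∃ J ≥ J₀, ∃ F : Fam m J, CT b K η R c₀ τ F

/-- **The class is not empty**, for the constants of `VexS`. -/
theorem cls_ne {b : ℝ} {K : ℕ} {η R c₀ : ℝ} (h : ∀ τ > 0, ∀ J₀ : ℕ,
    ∃ J ≥ J₀, ∃ F : Fam m J, CT b K η R c₀ τ F) : (cls m b K η R c₀).Ne := by
  intro τ hτ J₁
  obtain ⟨J, hJ, F, hF⟩ := h τ hτ J₁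
  refine ⟨J, hJ, F, fun _ => True, hF, ?_⟩
  rw [Pe_univ F.isLaw, Real.exp_le_one_iff]
  have : 0 ≤ τ * (J : ℝ) := mul_nonneg hτ.le (Nat.cast_nonneg J)
  linarith

/-- All events of cost `ψ J`: the family restricted to the event has times with live windows, the
label inequality fails. -/
theorem cls_event (hR : TGDRStmt) {b : ℝ} {K : ℕ} {η R c₀ τ ψ : ℝ} {F : Fam m J}
    {A : F.Ω → Prop} (hS : (cls m b K η R c₀).St τ J F A) {B : F.Ω → Prop}
    (hP : Real.exp (-(ψ * J)) * Pe F.p A ≤ Pe F.p B) (hc : τ + ψ ≤ c₀) :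
    ∃ h : IsLaw (cond F.p B True), (F.res B True h).TG False K η 0 (η * J)
      ((2 * τ + ψ) * J) ∧ ∀ L : Lbl (F.res B True h) b,
        (F.res B True h).Vf + R * J ≤ L.cost := by
  obtain ⟨⟨h1, h2, h3⟩, h4⟩ := hS
  have hPB : Real.exp (-((τ + ψ) * J)) ≤ Pe F.p B := by
    refine le_trans ?_ hP
    refine le_trans ?_ (mul_le_mul_of_nonneg_left h4 (Real.exp_pos _).le)
    rw [← Real.exp_add]
    refine Real.exp_le_exp.2 ?_
    have : -((τ + ψ) * (J : ℝ)) = -(ψ * J) + -(τ * J) := by ring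
    rw [this]
  obtain ⟨h, hT⟩ := hR m J F False K η 0 (η * J) (τ * J) ((τ + ψ) * J) h2 Prop B True hPB
  refine ⟨h, ?_, fun L => h3 B h ?_ L⟩
  · have e : τ * (J : ℝ) + (τ + ψ) * J = (2 * τ + ψ) * J := by ring
    rwa [e] at hT
  · refine le_trans (Real.exp_le_exp.2 ?_) hPB
    have : (τ + ψ) * (J : ℝ) ≤ c₀ * J := mul_le_mul_of_nonneg_right hc (Nat.cast_nonneg J)
    linarith

/-- The side information is trivial on all events. -/
theorem cls_tr {b : ℝ} {K : ℕ} {η R c₀ τ : ℝ} {F : Fam m J} {A : F.Ω → Prop}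
    (hS : (cls m b K η R c₀).St τ J F A) : F.Tr := hS.1.1

/-- The event has positive probability. -/
theorem cls_pos {b : ℝ} {K : ℕ} {η R c₀ τ : ℝ} {F : Fam m J} {A : F.Ω → Prop}
    (hS : (cls m b K η R c₀).St τ J F A) : 0 < Pe F.p A := (Real.exp_pos _).trans_le hS.2

/-- **The final step**: the label inequality holds if, for all constants, a subclass of the class
with an inequality for some label of the restriction is contradictory. -/
theorem lkg_of {b : ℝ} (hv : VexS m b)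
    (H : ∀ R > 0, ∀ c₀ > 0, ∃ η > 0, ∀ K : ℕ, ¬ (cls m b K η R c₀).Ne) : LKG m b := by
  by_contra hcon
  obtain ⟨R, hR, c₀, hc, h⟩ := hv hcon
  obtain ⟨η, hη, hn⟩ := H R hR c₀ hc
  obtain ⟨K, hK⟩ := h η hη
  exact hn K (cls_ne hK)

end Pool.PC
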